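import Pool.Agent.Lib.MP_6af4f0_al.Example

set_option autoImplicit false

/-!
# A densely locally minimal group `ℝ × SL₂(ℚ_p)`

The locally compact group `G = ℝ × SL₂(ℚ_p)` has a neighbourhood of the identity that contains no
non-trivial (closed) normal subgroup. Hence every dense subgroup of `G` is locally minimal. But `G`
is not totally disconnected, and its closed abelian subgroup of upper unipotent matrices, which is
isomorphic to `ℚ_p`, is not a Lie group; also `G` contains a copy of `ℤ_p`.
-/

namespace Pool.Agent.Results.MP_6af4f0_al.Disproof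

open Pool.Agent.Lib.MP_6af4f0_al Topology Manifold ContDiff

/-- `A` carries a compatible structure of a real Lie group of some finite dimension. -/
def IsLieGroup (A : Type) [Group A] [TopologicalSpace A] : Prop :=
  ∃ (n : ℕ) (_ : ChartedSpace (EuclideanSpace ℝ (Fin n)) A), LieGroup (𝓡 n) ∞ A

theorem result (p : ℕ) [Fact p.Prime] :
    IsTopologicalGroup (Ex p) ∧ T2Space (Ex p) ∧ LocallyCompactSpace (Ex p) ∧
    ¬ TotallyDisconnectedSpace (Ex p) ∧
    DenselyLocallyMinimal (Ex p) ∧
    (∃ A : Subgroup (Ex p), IsClosed (A : Set (Ex p)) ∧ (∀ x ∈ A, ∀ y ∈ A, x * y = y * x) ∧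
      ¬ IsLieGroup A) ∧
    (∃ f : Multiplicative ℤ_[p] →* Ex p, IsClosedEmbedding f) := by
  refine ⟨inferInstance, inferInstance, inferInstance, not_totallyDisconnected,
    denselyLocallyMinimal_ex, ⟨U p, isClosed_U, comm_U, ?_⟩, ⟨copyZp, isClosedEmbedding_copyZp⟩⟩
  rintro ⟨n, cs, _⟩
  exact (not_locallyEuclidean n).false cs

end Pool.Agent.Results.MP_6af4f0_al.Disproof
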